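import Pool.Agent.Y63.NV.Stm

/-!
# Invariant characters and quotients by normal `p`-subgroups
-/

open scoped Classical

noncomputable section

namespace Pool.Agent.Y824.NV

open Pool.Agent.Y63.NV

/-- a finite `p`-group has a nonzero fixed vector in characteristic `p` -/
theorem fixed_vector {p : ℕ} [hp : Fact p.Prime] {F : Type} [Field F] [CharP F p] {K : Type}
    [Group K] [Finite K] (hK : IsPGroup p K) {V : Type} [AddCommGroup V] [Module F V]
    [Nontrivial V] (ρ : Representation F K V) : ∃ v : V, v ≠ 0 ∧ ∀ k : K, ρ k v = v := by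
  obtain ⟨v0, hv0⟩ := exists_ne (0 : V)
  have hpV : ∀ v : V, p • v = 0 := by
    intro v
    rw [← Nat.cast_smul_eq_nsmul F, CharP.cast_eq_zero, zero_smul]
  set S : Set V := Set.range fun k : K => ρ k v0 with hS
  set W : AddSubgroup V := AddSubgroup.closure S with hW
  have hfin : S.Finite := Set.finite_range _
  have hfg : AddGroup.FG W := by
    rw [AddGroup.fg_iff_addSubgroup_fg, AddSubgroup.fg_iff]
    exact ⟨S, rfl, hfin⟩
  have hWfin : Finite W := by
    apply AddCommGroup.finite_of_fg_isAddTorsion W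
    intro w
    rw [isOfFinAddOrder_iff_nsmul_eq_zero]
    refine ⟨p, hp.out.pos, ?_⟩
    apply Subtype.ext
    exact hpV w
  have hstab : ∀ k : K, ∀ w ∈ W, ρ k w ∈ W := by
    intro k w hw
    have h1 : W ≤ W.comap (ρ k).toAddMonoidHom := by
      rw [hW, AddSubgroup.closure_le]
      rintro _ ⟨k', rfl⟩
      change ρ k (ρ k' v0) ∈ W
      rw [← Module.End.mul_apply, ← map_mul]
      exact AddSubgroup.subset_closure ⟨k * k', rfl⟩
    exact h1 hw
  have hv0W : v0 ∈ W := AddSubgroup.subset_closure ⟨1, by simp⟩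
  let _ : MulAction K W :=
    { smul := fun k w => ⟨ρ k w, hstab k w w.2⟩
      one_smul := fun w => Subtype.ext (by change ρ 1 (w : V) = w; simp)
      mul_smul := fun a b w => Subtype.ext (by
        change ρ (a * b) (w : V) = ρ a (ρ b w)
        rw [map_mul]; rfl) }
  have hdvd : p ∣ Nat.card W := by
    have h1 : addOrderOf (⟨v0, hv0W⟩ : W) = p := by
      apply addOrderOf_eq_prime
      · exact Subtype.ext (hpV v0)
      · intro h
        exact hv0 (congrArg Subtype.val h)
    rw [← h1]
    exact addOrderOf_dvd_natCard _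
  have h0 : (0 : W) ∈ MulAction.fixedPoints K W := by
    intro k
    apply Subtype.ext
    change ρ k (0 : V) = 0
    simp
  obtain ⟨b, hb, hb'⟩ := hK.exists_fixed_point_of_prime_dvd_card_of_fixed_point W hdvd h0
  refine ⟨b, fun h => hb' (Subtype.ext h.symm), fun k => ?_⟩
  exact congrArg Subtype.val (hb k)

/-- a normal `p`-subgroup acts trivially on irreducible modules in characteristic `p` -/
theorem trivial_action {p : ℕ} [hp : Fact p.Prime] {F : Type} [Field F] [CharP F p] {G : Type}
    [Group G] [Finite G] (K : Subgroup G) [hN : K.Normal] (hK : IsPGroup p K) {V : Type}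
    [AddCommGroup V] [Module F V] (ρ : Representation F G V) (hρ : ρ.IsIrreducible) :
    ∀ k ∈ K, ρ k = 1 := by
  have hnt : Nontrivial V := by
    by_contra hcon
    rw [not_nontrivial_iff_subsingleton] at hcon
    have h1 : (⊥ : Subrepresentation ρ) = ⊤ := by
      apply Subrepresentation.toSubmodule_injective
      exact Subsingleton.elim _ _
    exact bot_ne_top h1
  obtain ⟨v, hv, hv'⟩ := fixed_vector hK (ρ.comp K.subtype)
  let U : Subrepresentation ρ :=
    { toSubmodule :=
        { carrier := {v | ∀ k ∈ K, ρ k v = v}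
          zero_mem' := fun k _ => map_zero _
          add_mem' := fun {a b} ha hb k hk => by rw [map_add, ha k hk, hb k hk]
          smul_mem' := fun c a ha k hk => by rw [map_smul, ha k hk] }
      apply_mem_toSubmodule := fun g v hv k hk => by
        have h1 : ρ k (ρ g v) = ρ g (ρ (g⁻¹ * k * g) v) := by
          rw [← Module.End.mul_apply, ← map_mul, ← Module.End.mul_apply, ← map_mul]
          congr 2
          group
        rw [h1, hv _ (by simpa using hN.conj_mem k hk g⁻¹)] }
  have hU : U ≠ ⊥ := by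
    intro h
    apply hv
    have h1 : v ∈ U.toSubmodule := fun k hk => hv' ⟨k, hk⟩
    rw [h] at h1
    exact h1
  have hU' : U = ⊤ := (eq_bot_or_eq_top U).resolve_left hU
  intro k hk
  ext w
  have h1 : w ∈ U.toSubmodule := by
    rw [hU']
    exact Submodule.mem_top
  exact h1 k hk

/-- representations with the same image have the same subrepresentations -/
theorem irr_iff {F : Type} [Field F] {G G' : Type} [Group G] [Group G'] {V : Type}
    [AddCommGroup V] [Module F V] (π : G →* G') (hπ : Function.Surjective π)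
    (ρ : Representation F G V) (ρ' : Representation F G' V) (h : ∀ g, ρ g = ρ' (π g)) :
    ρ.IsIrreducible ↔ ρ'.IsIrreducible := by
  let e : Subrepresentation ρ ≃o Subrepresentation ρ' :=
    { toFun := fun U => ⟨U.toSubmodule, fun g' v hv => by
        obtain ⟨g, rfl⟩ := hπ g'
        rw [← h]
        exact U.apply_mem_toSubmodule g hv⟩
      invFun := fun U => ⟨U.toSubmodule, fun g v hv => by
        rw [h]
        exact U.apply_mem_toSubmodule (π g) hv⟩
      left_inv := fun U => rfl
      right_inv := fun U => rfl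
      map_rel_iff' := Iff.rfl }
  exact e.isSimpleOrder_iff

theorem inflate {F : Type} [Field F] {G G' : Type} [Group G] [Group G'] (π : G →* G')
    (hπ : Function.Surjective π) (φ : G' → F) (hφ : IsIrrTrace φ) :
    IsIrrTrace (fun g => φ (π g)) := by
  obtain ⟨V, i1, i2, i3, ρ, hρ, rfl⟩ := hφ
  exact ⟨V, i1, i2, i3, ρ.comp π, (irr_iff π hπ _ ρ fun g => rfl).2 hρ, rfl⟩

theorem deflate {p : ℕ} [hp : Fact p.Prime] {F : Type} [Field F] [CharP F p] {G G' : Type}
    [Group G] [Finite G] [Group G'] (π : G →* G') (hπ : Function.Surjective π)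
    (hK : IsPGroup p π.ker) (φ : G → F) (hφ : IsIrrTrace φ) :
    ∃ φ' : G' → F, IsIrrTrace φ' ∧ φ = fun g => φ' (π g) := by
  obtain ⟨V, i1, i2, i3, ρ, hρ, rfl⟩ := hφ
  have h1 : ∀ k ∈ π.ker, ρ k = 1 := trivial_action π.ker hK ρ hρ
  have h2 : ∀ a b : G, π a = π b → ρ a = ρ b := by
    intro a b hab
    have h3 : b⁻¹ * a ∈ π.ker := by
      rw [MonoidHom.mem_ker, map_mul, map_inv, hab, inv_mul_cancel]
    calc ρ a = ρ (b * (b⁻¹ * a)) := by rw [mul_inv_cancel_left]
      _ = ρ b * ρ (b⁻¹ * a) := map_mul _ _ _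
      _ = ρ b := by rw [h1 _ h3, mul_one]
  let ρ' : Representation F G' V :=
    { toFun := fun x => ρ (Function.surjInv hπ x)
      map_one' := by
        rw [← map_one ρ]
        apply h2
        rw [Function.surjInv_eq hπ, map_one]
      map_mul' := fun x y => by
        rw [← map_mul ρ]
        apply h2
        rw [Function.surjInv_eq hπ, map_mul, Function.surjInv_eq hπ, Function.surjInv_eq hπ] }
  have h3 : ∀ g, ρ g = ρ' (π g) := by
    intro g
    apply h2
    rw [Function.surjInv_eq hπ]
  refine ⟨ρ'.character, ⟨V, i1, i2, i3, ρ', (irr_iff π hπ ρ ρ' h3).1 hρ, rfl⟩, ?_⟩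
  funext g
  change LinearMap.trace F V (ρ g) = LinearMap.trace F V (ρ' (π g))
  rw [h3]

section

variable {F : Type} [Field F] {Γ : Type} [Group Γ] [Finite Γ]

/-- the sum over a group of a function supported on a subgroup -/
theorem finsum_supp (G : Subgroup Γ) (f : Γ → F) (hf : ∀ x, x ∉ G → f x = 0) :
    ∑ᶠ g : Γ, f g = ∑ᶠ g : G, f g := by
  have _ : Fintype Γ := Fintype.ofFinite Γ
  rw [finsum_eq_sum_of_fintype, finsum_eq_sum_of_fintype]
  symm
  apply Fintype.sum_of_injective (fun g : G => (g : Γ)) Subtype.val_injective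
  · intro i hi
    apply hf
    intro h
    exact hi ⟨⟨i, h⟩, rfl⟩
  · intro i
    rfl

omit [Finite Γ] in
theorem push_inZ (G M : Subgroup Γ) [G.Normal] [M.Normal] (z : Γ → F) (hz : InZ G z) :
    InZ (G.map (QuotientGroup.mk' M)) (push M z) := by
  constructor
  · intro g' x'
    obtain ⟨g, rfl⟩ := QuotientGroup.mk'_surjective M g'
    unfold push
    rw [← finsum_comp_equiv (MulAut.conj g).toEquiv]
    apply finsum_congr
    intro h
    have h1 : (MulAut.conj g).toEquiv h = g * h * g⁻¹ := rfl
    rw [h1, hz.conj]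
    have h2 : (((g * h * g⁻¹ : Γ) : Γ ⧸ M) =
        QuotientGroup.mk' M g * x' * (QuotientGroup.mk' M g)⁻¹) ↔ ((h : Γ ⧸ M) = x') := by
      have h3 : ((g * h * g⁻¹ : Γ) : Γ ⧸ M) =
        QuotientGroup.mk' M g * (h : Γ ⧸ M) * (QuotientGroup.mk' M g)⁻¹ := rfl
      rw [h3]
      constructor
      · intro h4
        exact mul_left_cancel (mul_right_cancel h4)
      · intro h4
        rw [h4]
    simp only [h2]
  · intro x' hx'
    unfold push
    apply finsum_eq_zero_of_forall_eq_zero
    intro g
    split_ifs with h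
    · apply hz.supp
      intro hg
      apply hx'
      rw [← h]
      exact ⟨g, hg, rfl⟩
    · rfl

theorem push_sum (G M : Subgroup Γ) [G.Normal] [M.Normal] (z : Γ → F) (hz : InZ G z)
    (ψ : G.map (QuotientGroup.mk' M) → F) :
    ∑ᶠ g' : G.map (QuotientGroup.mk' M), push M z g' * ψ g' =
      ∑ᶠ g : G, z g * ψ ((QuotientGroup.mk' M).subgroupMap G g) := by
  have _ : Fintype Γ := Fintype.ofFinite Γ
  have _ : Fintype G := Fintype.ofFinite G
  have _ : Fintype (G.map (QuotientGroup.mk' M)) := Fintype.ofFinite _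
  have h1 : ∀ g' : G.map (QuotientGroup.mk' M), push M z g' =
      ∑ g : G, if (QuotientGroup.mk' M).subgroupMap G g = g' then z g else 0 := by
    intro g'
    unfold push
    rw [finsum_supp G _ (fun x hx => by rw [hz.supp x hx, ite_self]), finsum_eq_sum_of_fintype]
    apply Finset.sum_congr rfl
    intro g _
    congr 1
    exact propext ⟨fun h => Subtype.ext h, fun h => congrArg Subtype.val h⟩
  rw [finsum_eq_sum_of_fintype, finsum_eq_sum_of_fintype]
  simp only [h1, Finset.sum_mul, ite_mul, zero_mul]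
  rw [Finset.sum_comm]
  apply Finset.sum_congr rfl
  intro g _
  rw [Finset.sum_ite_eq]
  simp

omit [Field F] [Finite Γ] in
theorem inv_iff (G M : Subgroup Γ) [hG : G.Normal] [M.Normal]
    (φ : G.map (QuotientGroup.mk' M) → F) :
    IsInvUnder ⊤ (fun g : G => φ ((QuotientGroup.mk' M).subgroupMap G g)) ↔ IsInvUnder ⊤ φ := by
  constructor
  · intro H h' _ x' y' hxy
    obtain ⟨h, rfl⟩ := QuotientGroup.mk'_surjective M h'
    obtain ⟨x, rfl⟩ := (QuotientGroup.mk' M).subgroupMap_surjective G x'
    have h1 := H h trivial x ⟨h * x * h⁻¹, hG.conj_mem x x.2 h⟩ rfl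
    refine Eq.trans (congrArg φ ?_) h1
    apply Subtype.ext
    rw [hxy]
    rfl
  · intro H h _ x y hxy
    apply H (QuotientGroup.mk' M h) trivial
    change QuotientGroup.mk' M (y : Γ) = _
    rw [hxy]
    rfl

theorem lnum_eq {p : ℕ} [hp : Fact p.Prime] [CharP F p] (G M : Subgroup Γ) [hG : G.Normal]
    [hM : M.Normal] (hMp : IsPGroup p M) (z : Γ → F) (hz : InZ G z) (c : F) :
    Lnum G ⊤ z c = Lnum (G.map (QuotientGroup.mk' M)) ⊤ (push M z) c := by
  set π := (QuotientGroup.mk' M).subgroupMap G with hπ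
  have hsurj : Function.Surjective π := (QuotientGroup.mk' M).subgroupMap_surjective G
  have hker : IsPGroup p π.ker := by
    intro k
    have hkM : ((k : G) : Γ) ∈ M := by
      have h1 : π (k : G) = 1 := k.2
      have h2 := congrArg Subtype.val h1
      exact (QuotientGroup.eq_one_iff _).1 h2
    obtain ⟨n, hn⟩ := hMp ⟨((k : G) : Γ), hkM⟩
    refine ⟨n, ?_⟩
    apply Subtype.ext
    apply Subtype.ext
    have h3 := congrArg Subtype.val hn
    simpa using h3
  have heig : ∀ φ : G.map (QuotientGroup.mk' M) → F,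
      (∀ x : G.map (QuotientGroup.mk' M), ∑ᶠ g : G.map (QuotientGroup.mk' M),
        push M z g * φ (g * x) = c * φ x) ↔
      ∀ x : G, ∑ᶠ g : G, z g * φ (π (g * x)) = c * φ (π x) := by
    intro φ
    have h1 : ∀ x : G, ∑ᶠ g : G, z g * φ (π (g * x)) =
        ∑ᶠ g : G.map (QuotientGroup.mk' M), push M z g * φ (g * π x) := by
      intro x
      rw [push_sum G M z hz (fun g => φ (g * π x))]
      apply finsum_congr
      intro g
      rw [map_mul]
    constructor
    · intro H x
      rw [h1]
      exact H (π x)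
    · intro H x'
      obtain ⟨x, rfl⟩ := hsurj x'
      rw [← h1]
      exact H x
  unfold Lnum
  symm
  apply Nat.card_congr
  refine Equiv.ofBijective (fun φ => ⟨fun g => φ.1 (π g), inflate π hsurj φ.1 φ.2.1,
    (inv_iff G M φ.1).2 φ.2.2.1, (heig φ.1).1 φ.2.2.2⟩) ⟨?_, ?_⟩
  · intro φ φ' h
    apply Subtype.ext
    funext x'
    obtain ⟨x, rfl⟩ := hsurj x'
    exact congrFun (congrArg Subtype.val h) x
  · rintro ⟨φ, hφ1, hφ2, hφ3⟩
    obtain ⟨φ', h1, rfl⟩ := deflate π hsurj hker φ hφ1
    exact ⟨⟨φ', h1, (inv_iff G M φ').1 hφ2, (heig φ').2 hφ3⟩, rfl⟩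

end

/-- characters and quotients by normal `p`-subgroups -/
theorem lq : Pool.Agent.Y63.NV.S_LQ := by
  intro p hp F _ _ _ Γ _ _ G M hG hM z hMp hz c
  refine ⟨push_inZ G M z hz, ?_⟩
  unfold Lsum
  rw [if_pos (sup_top_eq _), if_pos (sup_top_eq _), inf_top_eq, inf_top_eq, lnum_eq G M hMp z hz c,
    Subgroup.card_top, Subgroup.card_top, Subgroup.card_eq_card_quotient_mul_card_subgroup M]
  push_cast
  ring

end Pool.Agent.Y824.NV
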